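import Pool.Agent.Work.MP_c72427_an.U.FinAll
import Pool.Agent.Work.MP_c72427_an.S.Trans

set_option autoImplicit false

/-!
MP_c72427_an, Q1 (full answer: yes). The group von Neumann algebras of two explicit countable groups,
`G_β = (⊕_ℕ ℤ) ⋊ F_∞` and `G_γ = F ⋊ (⊕_ℕ ℤ)`, are II_1 factors with property Gamma which are not
McDuff, and no ultrapower of the first one is star isomorphic to an ultrapower of the second one.
-/

namespace Pool.Agent.Results.MP_c72427_an.NonEquivalentGamma

open MPc72427

universe u v

/-- The two factors `L(G_β)`, `L(G_γ)` are II_1 factors, have property Gamma and are not McDuff (even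
more, their central sequences commute), and no ultrapower of the first one is star isomorphic to an
ultrapower of the second one: they are not elementarily equivalent. -/
theorem result :
    (Countable GB ∧ Countable GC) ∧
    (IsII1Factor (LG GB) (bas 1) ∧ HasGamma (LG GB) (bas 1) ∧ ¬ IsMcDuff (LG GB) ∧
      CentralSequencesCommute (LG GB) (bas 1)) ∧
    (IsII1Factor (LG GC) (bas 1) ∧ HasGamma (LG GC) (bas 1) ∧ ¬ IsMcDuff (LG GC) ∧
      CentralSequencesCommute (LG GC) (bas 1)) ∧
    ∀ (I : Type u) (J : Type v) (U : Ultrafilter I) (V : Ultrafilter J),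
      ¬ UltIso (LG GB) (bas 1) U (LG GC) (bas 1) V := by
  refine ⟨⟨countable_GB, countable_GC⟩,
    ⟨isII1Factor_LG factor_beta, hasGamma_LG gamma_beta,
      not_isMcDuff_LG (not_mcDuff_of_csc csc_beta), csc_LG csc_beta⟩,
    ⟨isII1Factor_LG factor_gamma, hasGamma_LG gamma_gamma,
      not_isMcDuff_LG (not_mcDuff_of_csc csc_gamma), csc_LG csc_gamma⟩,
    fun I J U V h => ?_⟩
  obtain ⟨Φ⟩ := nonempty_iso_of_ultIso h
  exact (not_iso_all U V).elim Φ

end Pool.Agent.Results.MP_c72427_an.NonEquivalentGamma
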